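import Mathlib

/-! A finite colouring of the finite sums of an infinite set of positive integers is constant on
the finite sums of another infinite set of positive integers, each of which is a finite sum of the
first set. -/

namespace Pool.Agent.Helper76x.HT

open Finset

theorem FS_sum (a : Stream' ℕ) (m : ℕ) (h : m ∈ Hindman.FS a) :
    ∃ F : Finset ℕ, F.Nonempty ∧ ∑ i ∈ F, a.get i = m := by
  induction h with
  | head' a => exact ⟨{0}, by simp, by simp [Stream'.head]⟩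
  | tail' a m h ih =>
    obtain ⟨F, hF, hs⟩ := ih
    refine ⟨F.map ⟨Nat.succ, Nat.succ_injective⟩, by simpa using hF, ?_⟩
    rw [Finset.sum_map, ← hs]
    rfl
  | cons' a m h ih =>
    obtain ⟨F, hF, hs⟩ := ih
    refine ⟨insert 0 (F.map ⟨Nat.succ, Nat.succ_injective⟩), by simp, ?_⟩
    rw [Finset.sum_insert (by simp), Finset.sum_map, ← hs]
    rfl

/-- Bounds of blocks: the length of block `j` exceeds the sum of everything before. -/
def tb (b : ℕ → ℕ) : ℕ → ℕ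
  | 0 => 0
  | j + 1 => tb b j + 1 + ∑ k ∈ range (tb b j), b k

theorem tb_mono (b : ℕ → ℕ) : StrictMono (tb b) :=
  strictMono_nat_of_lt_succ fun j => by rw [tb]; omega

/-- The sum over a block. -/
def yb (b : ℕ → ℕ) (j : ℕ) : ℕ := ∑ k ∈ Ico (tb b j) (tb b (j + 1)), b k

theorem yb_gt {b : ℕ → ℕ} (hb : ∀ k, 0 < b k) (j : ℕ) :
    ∑ k ∈ range (tb b j), b k < yb b j := by
  have h1 : ∑ _k ∈ Ico (tb b j) (tb b (j + 1)), 1 ≤ yb b j := sum_le_sum fun k _ => hb k
  have h2 : ∑ _k ∈ Ico (tb b j) (tb b (j + 1)), 1 = tb b (j + 1) - tb b j := by simp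
  have h3 : tb b (j + 1) = tb b j + 1 + ∑ k ∈ range (tb b j), b k := rfl
  omega

theorem yb_mono {b : ℕ → ℕ} (hb : ∀ k, 0 < b k) : StrictMono (yb b) := by
  refine strictMono_nat_of_lt_succ fun j => ?_
  have h1 := yb_gt hb (j + 1)
  have h2 : yb b j ≤ ∑ k ∈ range (tb b (j + 1)), b k := by
    unfold yb
    refine sum_le_sum_of_subset fun k hk => ?_
    rw [mem_Ico] at hk
    exact mem_range.2 hk.2
  omega

theorem sum_yb (b : ℕ → ℕ) (J : Finset ℕ) :
    ∑ j ∈ J, yb b j = ∑ k ∈ J.biUnion fun j => Ico (tb b j) (tb b (j + 1)), b k := by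
  rw [sum_biUnion]
  · rfl
  · intro i _ j _ hij
    rw [Function.onFun, Finset.disjoint_left]
    intro k h1 h2
    rw [mem_Ico] at h1 h2
    rcases Nat.lt_or_gt_of_ne hij with h | h
    · have := (tb_mono b).monotone (show i + 1 ≤ j from h)
      omega
    · have := (tb_mono b).monotone (show j + 1 ≤ i from h)
      omega

theorem refine_hom {κ : Type} [Finite κ] (f : ℕ → κ) {X : Set ℕ} (hX : X.Infinite)
    (h0 : 0 ∉ X) : ∃ (Y : Set ℕ) (i : κ), Y.Infinite ∧ 0 ∉ Y ∧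
      ∀ F : Finset ℕ, (F : Set ℕ) ⊆ Y → F.Nonempty → f (∑ n ∈ F, n) = i ∧
        ∃ G : Finset ℕ, (G : Set ℕ) ⊆ X ∧ G.Nonempty ∧ ∑ n ∈ F, n = ∑ n ∈ G, n := by
  classical
  obtain ⟨e, he, heX⟩ : ∃ e : ℕ → ℕ, StrictMono e ∧ ∀ n, e n ∈ X :=
    ⟨Nat.nth (· ∈ X), Nat.nth_strictMono hX, fun n => Nat.nth_mem_of_infinite hX n⟩
  have hsum : ∀ m ∈ Hindman.FS (e : Stream' ℕ), ∃ G : Finset ℕ, (G : Set ℕ) ⊆ X ∧ G.Nonempty ∧
      m = ∑ n ∈ G, n := by
    intro m hm
    obtain ⟨F, hF, hs⟩ := FS_sum _ _ hm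
    refine ⟨F.image e, ?_, hF.image e, ?_⟩
    · intro x hx
      rw [Finset.coe_image] at hx
      obtain ⟨j, _, rfl⟩ := hx
      exact heX j
    · rw [Finset.sum_image fun i _ j _ h => he.injective h]
      exact hs.symm
  have hcov : Hindman.FS (e : Stream' ℕ) ⊆ ⋃₀ (Set.range fun i : κ =>
      {n | f n = i ∧ n ∈ Hindman.FS (e : Stream' ℕ)}) := fun n hn =>
    Set.mem_sUnion.2 ⟨_, ⟨f n, rfl⟩, rfl, hn⟩
  obtain ⟨_, ⟨i, rfl⟩, b, hb⟩ := Hindman.FS_partition_regular (e : Stream' ℕ) _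
    (Set.finite_range _) hcov
  have hpos : ∀ k, 0 < b.get k := by
    intro k
    obtain ⟨G, g1, g2, g3⟩ := hsum _ (hb (Hindman.FS.singleton b k)).2
    rw [g3]
    obtain ⟨x, hx⟩ := g2
    have h1 : x ≤ ∑ n ∈ G, n := Finset.single_le_sum (f := fun n => n) (fun _ _ => Nat.zero_le _) hx
    have h2 : x ≠ 0 := fun h => h0 (h ▸ g1 hx)
    omega
  have hm := yb_mono hpos
  refine ⟨Set.range (yb b.get), i, Set.infinite_range_of_injective hm.injective, ?_, ?_⟩
  · rintro ⟨j, hj⟩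
    have := yb_gt hpos j
    omega
  · intro F hF hne
    obtain ⟨J, rfl⟩ : ∃ J : Finset ℕ, F = J.image (yb b.get) := by
      obtain ⟨J, _, hJ⟩ := Finset.subset_set_image_iff (s := Set.univ) (f := yb b.get) (t := F) |>.1
        (by rw [Set.image_univ]; exact hF)
      exact ⟨J, hJ.symm⟩
    rw [Finset.sum_image fun i _ j _ h => hm.injective h, sum_yb]
    have hne' : (J.biUnion fun j => Ico (tb b.get j) (tb b.get (j + 1))).Nonempty := by
      rw [Finset.image_nonempty] at hne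
      obtain ⟨j, hj⟩ := hne
      exact ⟨tb b.get j, Finset.mem_biUnion.2 ⟨j, hj, Finset.mem_Ico.2
        ⟨le_rfl, tb_mono _ (Nat.lt_succ_self j)⟩⟩⟩
    have h1 := hb (Hindman.FS.finsetSum b _ hne')
    exact ⟨h1.1, hsum _ h1.2⟩

end Pool.Agent.Helper76x.HT
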