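import Pool.Agent.Helper76x.HT.Main
import Pool.Agent.Helper76x.HT.Ref

/-! A universal pair of `Σ⁰₄` sets, the solutions of the colourings for this pair, and reductions
to functions. -/

namespace Pool.Agent.Helper76x.HT

open Finset Pool.Agent.H645R2.HT Pool.Agent.Helper446 Pool.Agent.Helper446.RE
  Pool.Agent.Helper446.Oracle Pool.Agent.N579.HI

/-- A universal matrix. -/
def U4 (e n x u v w : ℕ) : Bool :=
  !(W0 w (Nat.pair e (Nat.pair n (Nat.pair x (Nat.pair u v)))))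

theorem univ4 {R : ℕ → ℕ → ℕ → ℕ → ℕ → Bool}
    (hR : Computable fun q : ℕ × ℕ × ℕ × ℕ × ℕ => R q.1 q.2.1 q.2.2.1 q.2.2.2.1 q.2.2.2.2) :
    ∃ e, ∀ n, S4 R n ↔ S4 (U4 e) n := by
  have h1 : REPred fun y : ℕ => ∃ w, R y.unpair.1 y.unpair.2.unpair.1
      y.unpair.2.unpair.2.unpair.1 y.unpair.2.unpair.2.unpair.2 w = false := by
    refine RE.exN (p := fun (y : ℕ) w => R y.unpair.1 y.unpair.2.unpair.1
      y.unpair.2.unpair.2.unpair.1 y.unpair.2.unpair.2.unpair.2 w = false) ?_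
    refine RE.eq ?_ (by fun_prop)
    exact hR.comp (g := fun x : ℕ × ℕ => (x.1.unpair.1, x.1.unpair.2.unpair.1,
      x.1.unpair.2.unpair.2.unpair.1, x.1.unpair.2.unpair.2.unpair.2, x.2)) (by fun_prop)
  obtain ⟨e, he⟩ := univ_W0 h1
  refine ⟨e, fun n => ?_⟩
  unfold S4
  refine exists_congr fun x => forall_congr' fun u => exists_congr fun v => ?_
  have h2 := he (Nat.pair n (Nat.pair x (Nat.pair u v)))
  simp only [Nat.unpair_pair] at h2
  unfold U4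
  rw [← not_iff_not]
  push Not
  simp only [Bool.not_eq_true, Bool.not_eq_false', Bool.not_eq_true']
  exact h2

/-- The matrix of the first set of the universal pair. -/
def V1 (a x u v w : ℕ) : Bool := U4 a.unpair.1.unpair.2 a.unpair.2 x u v w

/-- The matrix of the second set of the universal pair. -/
def V0 (a x u v w : ℕ) : Bool := U4 a.unpair.1.unpair.1 a.unpair.2 x u v w

theorem c_V1 : Computable fun q : ℕ × ℕ × ℕ × ℕ × ℕ =>
    V1 q.1 q.2.1 q.2.2.1 q.2.2.2.1 q.2.2.2.2 := by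
  unfold V1 U4
  exact cnot (c_W0.comp (g := fun q : ℕ × ℕ × ℕ × ℕ × ℕ => (q.2.2.2.2,
    Nat.pair q.1.unpair.1.unpair.2 (Nat.pair q.1.unpair.2 (Nat.pair q.2.1 (Nat.pair q.2.2.1
      q.2.2.2.1))))) (by fun_prop))

theorem c_V0 : Computable fun q : ℕ × ℕ × ℕ × ℕ × ℕ =>
    V0 q.1 q.2.1 q.2.2.1 q.2.2.2.1 q.2.2.2.2 := by
  unfold V0 U4
  exact cnot (c_W0.comp (g := fun q : ℕ × ℕ × ℕ × ℕ × ℕ => (q.2.2.2.2,
    Nat.pair q.1.unpair.1.unpair.1 (Nat.pair q.1.unpair.2 (Nat.pair q.2.1 (Nat.pair q.2.2.1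
      q.2.2.2.1))))) (by fun_prop))

theorem S4_V1 {e0 e1 n : ℕ} : S4 V1 (Nat.pair (Nat.pair e0 e1) n) ↔ S4 (U4 e1) n := by
  unfold S4 V1
  simp only [Nat.unpair_pair]

theorem S4_V0 {e0 e1 n : ℕ} : S4 V0 (Nat.pair (Nat.pair e0 e1) n) ↔ S4 (U4 e0) n := by
  unfold S4 V0
  simp only [Nat.unpair_pair]

/-- Reductions to a function. -/
theorem red {f h : ℕ → ℕ} {G : ℕ → ℕ → Bool} (hh : Computable h)
    (hG : Computable fun p : ℕ × ℕ => G p.1 p.2) :
    TuringReducible (fun n => Part.some (bif G n (f (h n)) then 1 else 0))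
      (fun n => Part.some (f n)) := by
  rw [TuringReducible, RecursiveIn.iff_nat]
  have h1 : Nat.RecursiveIn {fun n => Part.some (f n)} (fun n => Part.some (f n)) :=
    Nat.RecursiveIn.oracle _ rfl
  have h2 : Nat.RecursiveIn {fun n => Part.some (f n)} (fun n => Part.some (h n)) :=
    Nat.Partrec.recursiveIn (Partrec.nat_iff.1 hh)
  have h3 : Nat.RecursiveIn {fun n => Part.some (f n)} (fun n : ℕ => Part.some n) :=
    Nat.Partrec.recursiveIn (Partrec.nat_iff.1 Computable.id)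
  have h4 := Nat.RecursiveIn.pair h3 (Nat.RecursiveIn.comp h1 h2)
  have h5 : Computable fun m : ℕ => (bif G m.unpair.1 m.unpair.2 then 1 else 0 : ℕ) := by
    refine ccond ?_ (Computable.const 1) (Computable.const 0)
    exact hG.comp (g := fun m : ℕ => (m.unpair.1, m.unpair.2)) (by fun_prop)
  have h6 : Nat.RecursiveIn {fun n => Part.some (f n)}
      (fun m => Part.some (bif G m.unpair.1 m.unpair.2 then 1 else 0)) :=
    Nat.Partrec.recursiveIn (Partrec.nat_iff.1 h5)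
  refine (Nat.RecursiveIn.comp h6 h4).of_eq fun n => ?_
  simp [Seq.seq]

variable {R R' : ℕ → ℕ → ℕ → ℕ → ℕ → Bool}

/-- The colour with two colours. -/
noncomputable def c2 (R R' : ℕ → ℕ → ℕ → ℕ → ℕ → Bool) (a n : ℕ) : Fin 2 := by
  classical exact if ca (HB R R') a n ∈ SS then 1 else 0

theorem c_c2
    (hR : Computable fun q : ℕ × ℕ × ℕ × ℕ × ℕ => R q.1 q.2.1 q.2.2.1 q.2.2.2.1 q.2.2.2.2)
    (hR' : Computable fun q : ℕ × ℕ × ℕ × ℕ × ℕ => R' q.1 q.2.1 q.2.2.1 q.2.2.2.1 q.2.2.2.2) :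
    Computable fun p : ℕ × ℕ => c2 R R' p.1 p.2 := by
  classical
  have h := ((Primrec.dom_finite fun i : Fin 18 => (if i ∈ SS then 1 else 0 : Fin 2)).to_comp).comp
    (c_ca (c_HB hR hR'))
  refine h.of_eq fun p => ?_
  unfold c2
  rfl

theorem main2 {P : Prop} {a : ℕ} {X : Set ℕ}
    (hlim : ∃ m₀, ∀ m, m₀ ≤ m → ∃ q₀, ∀ q, q₀ ≤ q → ∃ s₀, ∀ s, s₀ ≤ s →
      (HB R R' (tr a m q) s = 1 ↔ P)) (hX : X.Infinite) (h0 : 0 ∉ X) {i : Fin 2}
    (hc : ∀ F : Finset ℕ, (F : Set ℕ) ⊆ X → F.Nonempty → c2 R R' a (∑ n ∈ F, n) = i) :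
    i = 1 ↔ P := by
  classical
  obtain ⟨Y, j, y1, y2, y3⟩ := refine_hom (ca (HB R R') a) hX h0
  have h1 := main3 hlim y1 y2 (i := j) fun F f1 f2 _ => (y3 F f1 f2).1
  obtain ⟨y, hy⟩ := y1.nonempty
  have h2 := y3 {y} (by simpa using hy) (by simp)
  obtain ⟨h3, G, g1, g2, g3⟩ := h2
  have h4 := hc G g1 g2
  unfold c2 at h4
  rw [← g3, h3] at h4
  rw [← h4, ← h1]
  by_cases h5 : j ∈ SS <;> simp [h5]

end Pool.Agent.Helper76x.HT
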