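import Pool.Agent.N579.HI.Str
import Pool.Agent.H645R2.HT.Univ

/-! The weighted sum of the labels of the gaps with a fixed root: the residue of the sum on a
solution determines the label of the junction of two elements. -/

namespace Pool.Agent.Helper76x.HT

open Finset Pool.Agent.H645R2.HT Pool.Agent.Helper446 Pool.Agent.Helper446.RE
  Pool.Agent.Helper446.Oracle Pool.Agent.N579.HI

/-- The weighted sum with the root `a`. -/
def EA (H : ℕ → ℕ → ℕ) (μ a n : ℕ) : ℕ :=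
  bsum (fun p => bsum (fun q => bif gapB n p q then μ ^ (1 + depB H n p q) *
    H (tr a p q) (enB H n p q) else 0) n) n

theorem EA_eq {H : ℕ → ℕ → ℕ} {μ a n K : ℕ} :
    ((EA H μ a n : ℕ) : ZMod K) = EF H (ZMod K) (μ : ZMod K) a (D n) := by
  unfold EA EF
  rw [bsum_eq]
  simp only [bsum_eq]
  have h := sum_gaps n (fun _ _ => True) (fun p q => μ ^ (1 + depB H n p q) *
    H (tr a p q) (enB H n p q))
  have e : ∑ a' ∈ range n, ∑ b ∈ range n, (bif gapB n a' b then μ ^ (1 + depB H n a' b) *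
      H (tr a a' b) (enB H n a' b) else 0) = ∑ γ ∈ gaps (D n),
      μ ^ (1 + depB H n γ.1 γ.2) * H (tr a γ.1 γ.2) (enB H n γ.1 γ.2) := by
    rw [filter_true_of_mem fun _ _ => trivial] at h
    rw [← h]
    refine sum_congr rfl fun a _ => sum_congr rfl fun b _ => ?_
    rw [cond_eq_ite]
    refine if_congr ?_ rfl rfl
    rw [gapB_iff, and_true]
  rw [e, Nat.cast_sum]
  refine sum_congr rfl fun γ _ => ?_
  rw [depB_eq, enB_eq]
  push_cast
  rfl

/-- The residue of the weighted sum. -/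
def cR (H : ℕ → ℕ → ℕ) (a n : ℕ) : ℕ := EA H (2 * 2) a n % KK 2

theorem cR_eq {H : ℕ → ℕ → ℕ} {a n : ℕ} : ((cR H a n : ℕ) : ZMod (KK 2)) =
    EF H (ZMod (KK 2)) ((2 * 2 : ℕ) : ZMod (KK 2)) a (D n) := by
  rw [← EA_eq]
  unfold cR
  exact ZMod.natCast_mod _ _

/-- The residues which mean that the label of the junctions is `1`. -/
def S9 : Set ℕ := {i | ∃ d : ℤ, |d| < 2 ∧ (KK 2 : ℤ) ∣ d + 2 * 2 * (1 + i)}

theorem lab {H : ℕ → ℕ → ℕ} (hk : ∀ z s, H z s < 2) {a w y i : ℕ} (hw : 0 < w) (hy : 0 < y)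
    (hs : Sep w y) (ha : a ≤ la w) (hf : Fa H (mu w) (la y)) (e1 : cR H a w = i)
    (e2 : cR H a y = i) (e3 : cR H a (w + y) = i) :
    i ∈ S9 ↔ H (tr a (mu w) (la y)) (mu y) = 1 := by
  have hx : ∀ b ∈ D w, a ≤ b := fun b hb => ha.trans (la_le (List.mem_toFinset.1 hb))
  obtain ⟨n, d, hd, e⟩ := main_sum (jn hw hy hs) hf ((2 * 2 : ℕ) : ZMod (KK 2)) hx hk
  rw [← D_add hs, ← cR_eq, ← cR_eq, ← cR_eq, e1, e2, e3] at e
  have h1 := bracket_zero e
  have h2 : (((d + 2 * 2 * ((H (tr a (mu w) (la y)) (mu y) : ℤ) + i) : ℤ)) : ZMod (KK 2)) = 0 := by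
    push_cast at h1 ⊢
    linear_combination h1
  have h3 := (ZMod.intCast_zmod_eq_zero_iff_dvd _ _).1 h2
  constructor
  · rintro ⟨d', hd', h4⟩
    have h5 : (KK 2 : ℤ) ∣ (d - d') + 2 * ((2 : ℕ) : ℤ) *
        ((H (tr a (mu w) (la y)) (mu y) : ℤ) - 1) := by
      have h6 := dvd_sub h3 h4
      refine h6.trans (dvd_of_eq ?_)
      push_cast
      ring
    have := int_decode (k := 2) hd (by exact_mod_cast hd') (by positivity)
      (by exact_mod_cast hk _ _) (by norm_num) (by norm_num) h5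
    exact_mod_cast this
  · intro h4
    rw [h4] at h3
    exact ⟨d, by exact_mod_cast hd, by exact_mod_cast h3⟩

section comp

variable {H : ℕ → ℕ → ℕ} (hH : Computable fun p : ℕ × ℕ => H p.1 p.2)

include hH

theorem c_EA (μ : ℕ) : Computable fun p : ℕ × ℕ => EA H μ p.1 p.2 := by
  unfold EA
  refine c_bsum (f := fun (a : ℕ × ℕ) p => bsum (fun q => bif gapB a.2 p q then
    μ ^ (1 + depB H a.2 p q) * H (tr a.1 p q) (enB H a.2 p q) else 0) a.2) ?_ (by fun_prop)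
  refine c_bsum (f := fun (y : (ℕ × ℕ) × ℕ) q => bif gapB y.1.2 y.2 q then
    μ ^ (1 + depB H y.1.2 y.2 q) * H (tr y.1.1 y.2 q) (enB H y.1.2 y.2 q) else 0)
    ?_ (by fun_prop)
  have h1 : Computable fun x : ((ℕ × ℕ) × ℕ) × ℕ => depB H x.1.1.2 x.1.2 x.2 :=
    c_depB hH (by fun_prop) (by fun_prop) (by fun_prop)
  have h2 : Computable fun x : ((ℕ × ℕ) × ℕ) × ℕ => μ ^ (1 + depB H x.1.1.2 x.1.2 x.2) :=
    c_powc μ (by fun_prop)
  have h3 : Computable fun x : ((ℕ × ℕ) × ℕ) × ℕ => enB H x.1.1.2 x.1.2 x.2 :=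
    c_enB hH (by fun_prop) (by fun_prop) (by fun_prop)
  have h4 : Computable fun x : ((ℕ × ℕ) × ℕ) × ℕ => tr x.1.1.1 x.1.2 x.2 :=
    c_tr (by fun_prop) (by fun_prop) (by fun_prop)
  have h5 := c_H hH h4 h3
  refine ccond (c_gapB (by fun_prop) (by fun_prop) (by fun_prop)) ?_ (by fun_prop)
  exact (Primrec.nat_mul.to_comp).comp h2 h5

theorem c_cR : Computable fun p : ℕ × ℕ => cR H p.1 p.2 := by
  unfold cR
  exact (Primrec.nat_mod.to_comp).comp (c_EA hH _) (Computable.const _)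

end comp

end Pool.Agent.Helper76x.HT
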