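import Pool.Agent.N579.HI.Appr
import Pool.Agent.Helper76x.HT.Root

/-! A separation of two disjoint `Σ⁰₄` sets by iterated limits of a computable function of three
numbers. -/

namespace Pool.Agent.Helper76x.HT

open Finset Pool.Agent.H645R2.HT Pool.Agent.Helper446 Pool.Agent.Helper446.RE
  Pool.Agent.Helper446.Oracle Pool.Agent.N579.HI

variable {R R' : ℕ → ℕ → ℕ → ℕ → ℕ → Bool}

/-- The matrix of the candidate `c = ⟨x, j⟩`: that of the set for `j = 1`, otherwise that of the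
complement. -/
def mt (R R' : ℕ → ℕ → ℕ → ℕ → ℕ → Bool) (a c u v w : ℕ) : Bool :=
  bif decide (c.unpair.2 = 1) then R a c.unpair.1 u v w else R' a c.unpair.1 u v w

/-- The candidate `c` looks right. -/
def tB (R R' : ℕ → ℕ → ℕ → ℕ → ℕ → Bool) (z s c : ℕ) : Bool :=
  allB (fun u => exB (fun v => allB (fun w => mt R R' z.unpair.1 c u v w) (s + 1))
    (z.unpair.2.unpair.2 + 1)) (z.unpair.2.unpair.1 + 1)

theorem tB_iff {a m q s c : ℕ} : tB R R' (tr a m q) s c = true ↔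
    ∀ u ≤ m, ∃ v ≤ q, ∀ w ≤ s, mt R R' a c u v w = true := by
  unfold tB tr
  simp only [allB_iff, exB_iff, Nat.unpair_pair, Nat.lt_succ_iff]

/-- The approximation. -/
def HB (R R' : ℕ → ℕ → ℕ → ℕ → ℕ → Bool) (z s : ℕ) : ℕ :=
  bif decide (lst (tB R R' z s) (z.unpair.2.unpair.1 + 1) < z.unpair.2.unpair.1 + 1) &&
    decide ((lst (tB R R' z s) (z.unpair.2.unpair.1 + 1)).unpair.2 = 1) then 1 else 0

theorem HB_lt (z s : ℕ) : HB R R' z s < 2 := by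
  unfold HB
  cases (decide (lst (tB R R' z s) (z.unpair.2.unpair.1 + 1) < z.unpair.2.unpair.1 + 1) &&
    decide ((lst (tB R R' z s) (z.unpair.2.unpair.1 + 1)).unpair.2 = 1)) <;> simp

theorem tB_anti {z s s' v : ℕ} (h : s ≤ s') (h1 : tB R R' z s' v = true) :
    tB R R' z s v = true := by
  unfold tB at *
  simp only [allB_iff, exB_iff, Nat.lt_succ_iff] at *
  intro u hu
  obtain ⟨v, hv, h2⟩ := h1 u hu
  exact ⟨v, hv, fun w hw => h2 w (by omega)⟩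

theorem HB_cv : Cv (HB R R') := by
  intro z
  have h1 : ∀ v, ∃ s₀, ∀ s, s₀ ≤ s → tB R R' z s v = tB R R' z s₀ v := by
    intro v
    by_cases h : ∃ s, tB R R' z s v = false
    · obtain ⟨s₀, hs⟩ := h
      refine ⟨s₀, fun s hss => ?_⟩
      rw [hs, Bool.eq_false_iff]
      intro h2
      rw [tB_anti hss h2] at hs
      cases hs
    · push Not at h
      refine ⟨0, fun s _ => ?_⟩
      rw [Bool.eq_true_of_not_eq_false (h s), Bool.eq_true_of_not_eq_false (h 0)]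
  choose f hf using h1
  refine ⟨(range (z.unpair.2.unpair.1 + 1)).sup f, fun s hs => ?_⟩
  have e : lst (tB R R' z s) (z.unpair.2.unpair.1 + 1) =
      lst (tB R R' z ((range (z.unpair.2.unpair.1 + 1)).sup f)) (z.unpair.2.unpair.1 + 1) := by
    refine lst_congr fun i hi => ?_
    have h2 : f i ≤ (range (z.unpair.2.unpair.1 + 1)).sup f :=
      le_sup (f := f) (mem_range.2 hi)
    rw [hf i s (by omega), hf i _ h2]
  unfold HB
  rw [e]

theorem HB_lim {a : ℕ} {P : Prop} (hex : ∃ c : ℕ, ∀ u, ∃ v, ∀ w, mt R R' a c u v w = true)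
    (hP : ∀ c : ℕ, (∀ u, ∃ v, ∀ w, mt R R' a c u v w = true) → (c.unpair.2 = 1 ↔ P)) :
    ∃ m₀, ∀ m, m₀ ≤ m → ∃ q₀, ∀ q, q₀ ≤ q → ∃ s₀, ∀ s, s₀ ≤ s →
      (HB R R' (tr a m q) s = 1 ↔ P) := by
  classical
  obtain ⟨c, hc, hmin⟩ : ∃ c : ℕ, (∀ u, ∃ v, ∀ w, mt R R' a c u v w = true) ∧
      ∀ c' < c, ¬ (∀ u, ∃ v, ∀ w, mt R R' a c' u v w = true) :=
    ⟨Nat.find hex, Nat.find_spec hex, fun c' h => Nat.find_min hex h⟩
  have hside : c.unpair.2 = 1 ↔ P := hP c hc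
  have h1 : ∀ c', ∃ u, c' < c → ∀ v, ∃ w, mt R R' a c' u v w = false := by
    intro c'
    by_cases h : c' < c
    · have h2 := hmin c' h
      push Not at h2
      obtain ⟨u, hu⟩ := h2
      refine ⟨u, fun _ v => ?_⟩
      obtain ⟨w, hw⟩ := hu v
      exact ⟨w, by simpa using hw⟩
    · exact ⟨0, fun h2 => absurd h2 h⟩
  choose U hU using h1
  choose V hV using hc
  have h2 : ∀ c' v, ∃ w, c' < c → mt R R' a c' (U c') v w = false := by
    intro c' v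
    by_cases h : c' < c
    · obtain ⟨w, hw⟩ := hU c' h v
      exact ⟨w, fun _ => hw⟩
    · exact ⟨0, fun h3 => absurd h3 h⟩
  choose W hW using h2
  refine ⟨max c ((range c).sup U), fun m hm => ⟨(range (m + 1)).sup V, fun q hq =>
    ⟨(range c).sup fun c' => (range (q + 1)).sup (W c'), fun s hs => ?_⟩⟩⟩
  have h3 : tB R R' (tr a m q) s c = true := by
    rw [tB_iff]
    intro u hu
    have : V u ≤ (range (m + 1)).sup V := le_sup (f := V) (mem_range.2 (by omega))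
    exact ⟨V u, by omega, fun w _ => hV u w⟩
  have h4 : ∀ c' < c, tB R R' (tr a m q) s c' = false := by
    intro c' hc'
    rw [Bool.eq_false_iff]
    intro h5
    rw [tB_iff] at h5
    have h6 : U c' ≤ (range c).sup U := le_sup (f := U) (mem_range.2 hc')
    obtain ⟨v, hv, h7⟩ := h5 (U c') (by omega)
    have h8 : (range (q + 1)).sup (W c') ≤ (range c).sup fun c' => (range (q + 1)).sup (W c') :=
      le_sup (f := fun c' => (range (q + 1)).sup (W c')) (mem_range.2 hc')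
    have h9 : W c' v ≤ (range (q + 1)).sup (W c') :=
      le_sup (f := W c') (mem_range.2 (by omega))
    have h10 := h7 (W c' v) (by omega)
    rw [hW c' v hc'] at h10
    cases h10
  have h5 : lst (tB R R' (tr a m q) s) (m + 1) = c := by
    obtain ⟨a1, a2, a3⟩ := lst_lt_of (q := tB R R' (tr a m q) s) (n := m + 1) (i := c)
      (by omega) h3
    rcases a1.lt_or_eq with h6 | h6
    · rw [h4 _ h6] at a3
      cases a3
    · exact h6
  unfold HB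
  have h6 : (tr a m q).unpair.2.unpair.1 = m := by simp [tr]
  rw [h6, h5, decide_eq_true (show c < m + 1 by omega), Bool.true_and, ← hside]
  by_cases h7 : c.unpair.2 = 1 <;> simp [h7]

/-- The `Σ⁰₄` sentence with the matrix `R` at `n`. -/
def S4 (R : ℕ → ℕ → ℕ → ℕ → ℕ → Bool) (n : ℕ) : Prop := ∃ x, ∀ u, ∃ v, ∀ w, R n x u v w = true

theorem HB_lim1 {a : ℕ} (h1 : S4 R a) (h2 : ¬ S4 R' a) :
    ∃ m₀, ∀ m, m₀ ≤ m → ∃ q₀, ∀ q, q₀ ≤ q → ∃ s₀, ∀ s, s₀ ≤ s →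
      (HB R R' (tr a m q) s = 1 ↔ True) := by
  refine HB_lim ?_ fun c hc => ?_
  · obtain ⟨x, hx⟩ := h1
    refine ⟨Nat.pair x 1, ?_⟩
    unfold mt
    simpa using hx
  · refine iff_of_true ?_ trivial
    by_contra h
    refine h2 ⟨c.unpair.1, fun u => ?_⟩
    obtain ⟨v, hv⟩ := hc u
    refine ⟨v, fun w => ?_⟩
    have := hv w
    unfold mt at this
    simpa [h] using this

theorem HB_lim0 {a : ℕ} (h1 : S4 R' a) (h2 : ¬ S4 R a) :
    ∃ m₀, ∀ m, m₀ ≤ m → ∃ q₀, ∀ q, q₀ ≤ q → ∃ s₀, ∀ s, s₀ ≤ s →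
      (HB R R' (tr a m q) s = 1 ↔ False) := by
  refine HB_lim ?_ fun c hc => ?_
  · obtain ⟨x, hx⟩ := h1
    refine ⟨Nat.pair x 0, ?_⟩
    unfold mt
    simpa using hx
  · refine iff_of_false ?_ id
    intro h
    refine h2 ⟨c.unpair.1, fun u => ?_⟩
    obtain ⟨v, hv⟩ := hc u
    refine ⟨v, fun w => ?_⟩
    have := hv w
    unfold mt at this
    simpa [h] using this

theorem c_mt (hR : Computable fun q : ℕ × ℕ × ℕ × ℕ × ℕ => R q.1 q.2.1 q.2.2.1 q.2.2.2.1 q.2.2.2.2)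
    (hR' : Computable fun q : ℕ × ℕ × ℕ × ℕ × ℕ => R' q.1 q.2.1 q.2.2.1 q.2.2.2.1 q.2.2.2.2) :
    Computable fun q : ℕ × ℕ × ℕ × ℕ × ℕ => mt R R' q.1 q.2.1 q.2.2.1 q.2.2.2.1 q.2.2.2.2 := by
  unfold mt
  refine ccond (c_deq (by fun_prop) (by fun_prop)) ?_ ?_
  · exact hR.comp (g := fun q : ℕ × ℕ × ℕ × ℕ × ℕ => (q.1, q.2.1.unpair.1, q.2.2))
      (by fun_prop)
  · exact hR'.comp (g := fun q : ℕ × ℕ × ℕ × ℕ × ℕ => (q.1, q.2.1.unpair.1, q.2.2))
      (by fun_prop)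

theorem c_tB (hR : Computable fun q : ℕ × ℕ × ℕ × ℕ × ℕ => R q.1 q.2.1 q.2.2.1 q.2.2.2.1 q.2.2.2.2)
    (hR' : Computable fun q : ℕ × ℕ × ℕ × ℕ × ℕ => R' q.1 q.2.1 q.2.2.1 q.2.2.2.1 q.2.2.2.2) :
    Computable fun p : ℕ × ℕ × ℕ => tB R R' p.1 p.2.1 p.2.2 := by
  have hm := c_mt hR hR'
  unfold tB
  refine computable_allB (q := fun (p : ℕ × ℕ × ℕ) u => exB (fun v => allB (fun w =>
    mt R R' p.1.unpair.1 p.2.2 u v w) (p.2.1 + 1)) (p.1.unpair.2.unpair.2 + 1)) ?_ (by fun_prop)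
  unfold Computable₂
  refine computable_exB (q := fun (y : (ℕ × ℕ × ℕ) × ℕ) v => allB (fun w =>
    mt R R' y.1.1.unpair.1 y.1.2.2 y.2 v w) (y.1.2.1 + 1)) ?_ (by fun_prop)
  unfold Computable₂
  refine computable_allB (q := fun (y : ((ℕ × ℕ × ℕ) × ℕ) × ℕ) w =>
    mt R R' y.1.1.1.unpair.1 y.1.1.2.2 y.1.2 y.2 w) ?_ (by fun_prop)
  unfold Computable₂
  exact hm.comp (g := fun x : (((ℕ × ℕ × ℕ) × ℕ) × ℕ) × ℕ => (x.1.1.1.1.unpair.1, x.1.1.1.2.2,
    x.1.1.2, x.1.2, x.2)) (by fun_prop)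

theorem c_HB (hR : Computable fun q : ℕ × ℕ × ℕ × ℕ × ℕ => R q.1 q.2.1 q.2.2.1 q.2.2.2.1 q.2.2.2.2)
    (hR' : Computable fun q : ℕ × ℕ × ℕ × ℕ × ℕ => R' q.1 q.2.1 q.2.2.1 q.2.2.2.1 q.2.2.2.2) :
    Computable fun p : ℕ × ℕ => HB R R' p.1 p.2 := by
  have h1 : Computable fun p : ℕ × ℕ => lst (tB R R' p.1 p.2) (p.1.unpair.2.unpair.1 + 1) := by
    refine c_lst (q := fun (p : ℕ × ℕ) v => tB R R' p.1 p.2 v) ?_ (by fun_prop)
    exact (c_tB hR hR').comp (g := fun x : (ℕ × ℕ) × ℕ => (x.1.1, x.1.2, x.2))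
      (by fun_prop)
  unfold HB
  exact ccond (cand (c_dlt h1 (by fun_prop)) (c_deq (by fun_prop) (by fun_prop)))
    (by fun_prop) (by fun_prop)

end Pool.Agent.Helper76x.HT
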