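import Pool.Agent.N579.HI.Fin
import Pool.Agent.Helper76x.HT.Appr

/-! The colour of a solution of the colouring with root `a` is given by the limit of the
approximation. -/

namespace Pool.Agent.Helper76x.HT

open Finset Pool.Agent.H645R2.HT Pool.Agent.Helper446 Pool.Agent.Helper446.RE
  Pool.Agent.Helper446.Oracle Pool.Agent.N579.HI

/-- The number of the colour. -/
def cn (H : ℕ → ℕ → ℕ) (a n : ℕ) : ℕ := (bif b0 n then 1 else 0) + 2 * cR H a n

theorem cn_lt (H : ℕ → ℕ → ℕ) (a n : ℕ) : cn H a n < 18 := by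
  have h2 : cR H a n < 9 := Nat.mod_lt _ (by unfold KK; norm_num)
  unfold cn
  cases b0 n <;> simp <;> omega

/-- The colouring with root `a`. -/
def ca (H : ℕ → ℕ → ℕ) (a n : ℕ) : Fin 18 := ⟨cn H a n, cn_lt H a n⟩

theorem c_ca {H : ℕ → ℕ → ℕ} (hH : Computable fun p : ℕ × ℕ => H p.1 p.2) :
    Computable fun p : ℕ × ℕ => ca H p.1 p.2 := by
  refine c_fin ?_
  show Computable fun p : ℕ × ℕ => cn H p.1 p.2
  unfold cn
  have h1 := c_cR hH
  have h2 : Computable fun p : ℕ × ℕ => b0 p.2 := c_b0.comp Computable.snd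
  have h3 : Computable fun p : ℕ × ℕ => (bif b0 p.2 then 1 else 0 : ℕ) :=
    ccond h2 (Computable.const 1) (Computable.const 0)
  fun_prop

theorem cn_inj {H : ℕ → ℕ → ℕ} {a m n : ℕ} (h : cn H a m = cn H a n) :
    b0 m = b0 n ∧ cR H a m = cR H a n := by
  unfold cn at h
  cases h1 : b0 m <;> cases h2 : b0 n <;> rw [h1, h2] at h <;> simp at h ⊢ <;> omega

/-- The colours which say that the limit is `1`. -/
def SS : Set (Fin 18) := {i | (i : ℕ) / 2 ∈ S9}

theorem main3 {R R' : ℕ → ℕ → ℕ → ℕ → ℕ → Bool} {P : Prop} {a : ℕ} {X : Set ℕ}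
    (hlim : ∃ m₀, ∀ m, m₀ ≤ m → ∃ q₀, ∀ q, q₀ ≤ q → ∃ s₀, ∀ s, s₀ ≤ s →
      (HB R R' (tr a m q) s = 1 ↔ P)) (hX : X.Infinite) (h0 : 0 ∉ X) {i : Fin 18}
    (hc : ∀ F : Finset ℕ, (F : Set ℕ) ⊆ X → F.Nonempty → F.card ≤ 3 →
      ca (HB R R') a (∑ n ∈ F, n) = i) : i ∈ SS ↔ P := by
  have hp := ps_of h0
  obtain ⟨x0, hx0⟩ := hX.nonempty
  have hc3 : Const3 (ca (HB R R') a) X := ⟨i, hc⟩
  -- the two components
  have hval : ∀ F : Finset ℕ, (F : Set ℕ) ⊆ X → F.Nonempty → F.card ≤ 3 →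
      cn (HB R R') a (∑ n ∈ F, n) = i := fun F h1 h2 h3 => congrArg Fin.val (hc F h1 h2 h3)
  have hx0' : cn (HB R R') a x0 = i := by
    have := hval {x0} (by simpa using hx0) (by simp) (by simp)
    simpa using this
  have hb : Const3 b0 X := ⟨b0 x0, fun F h1 h2 h3 =>
    (cn_inj ((hval F h1 h2 h3).trans hx0'.symm)).1⟩
  have hr : ∀ F : Finset ℕ, (F : Set ℕ) ⊆ X → F.Nonempty → F.card ≤ 3 →
      cR (HB R R') a (∑ n ∈ F, n) = (i : ℕ) / 2 := by
    intro F h1 h2 h3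
    rw [← hval F h1 h2 h3]
    unfold cn
    cases b0 (∑ n ∈ F, n) <;> simp <;> omega
  have hf := hb.far hX hp
  have hr3 : Const3 (cR (HB R R') a) X := ⟨(i : ℕ) / 2, hr⟩
  obtain ⟨j, j1, j2, j3⟩ := hr3.one
  have hj : j = (i : ℕ) / 2 := by
    have := hr {x0} (by simpa using hx0) (by simp) (by simp)
    rw [Finset.sum_singleton, j1 x0 hx0] at this
    exact this
  -- the elements
  obtain ⟨m₀, hm⟩ := hlim
  obtain ⟨w, hw, hw2⟩ := hf (max a m₀)
  have pw := hp w hw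
  have lw := la_le_mu pw
  obtain ⟨q₀, hq⟩ := hm (mu w) (by omega)
  obtain ⟨N, hN⟩ := exists_stab (HB_cv (R := R) (R' := R')) (FF (mu w))
  obtain ⟨y, hy, hy2⟩ := hf (max (mu w) (max q₀ N))
  have py := hp y hy
  have ly := la_le_mu py
  obtain ⟨s₀, hs⟩ := hq (la y) (by omega)
  obtain ⟨l, hl, hl2⟩ := hf (max (mu y) s₀)
  have pl := hp l hl
  have ll := la_le_mu pl
  have s1 : Sep w y := by unfold Pool.Agent.H645R2.HT.Sep; omega
  have s2 : Sep y l := by unfold Pool.Agent.H645R2.HT.Sep; omega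
  have s3 : Sep w (y + l) := sep_add_right py s1 s2
  have q1 : la (y + l) = la y := la_add py s2
  have q2 : mu (y + l) = mu l := mu_add pl s2
  have hF : Fa (HB R R') (mu w) (la (y + l)) := by
    intro z hz c hc'
    rw [q1] at hc' ⊢
    rw [hN z hz c (by omega), hN z hz (la y) (by omega)]
  have key := lab (H := HB R R') (i := j) HB_lt pw (by omega : 0 < y + l) s3
    (by omega : a ≤ la w) hF (j1 w hw) (j2 y hy l hl (sep_ne py s2))
    (j3 w hw y hy l hl (sep_ne pw s1) (sep_ne pw (sep_trans py s1 s2)) (sep_ne py s2))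
  rw [q1, q2, hs (mu l) (by omega)] at key
  show (i : ℕ) / 2 ∈ S9 ↔ P
  rw [← hj]
  exact key

end Pool.Agent.Helper76x.HT
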